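import Pool.Agent.Helper65.EV.St
import Pool.Agent.Helper84.Eve.Exch

/-!
# Project EV (MP_dd3681_pr): module WK, the weight of a single pattern
-/

set_option autoImplicit false

namespace Pool.Agent.Helper77.EV

open MeasureTheory ProbabilityTheory Set Filter
open scoped ENNReal Topology
open Pool.Agent.Helper84.Eve

theorem hWK : Pool.Agent.Helper65.EV.hWK := by
  intro Λ hs n κ hκ
  exact wS_single hs hκ

end Pool.Agent.Helper77.EV
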